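import Pool.Agent.Helper12_AEU.StmtF

/-! helper14, AEU (MP_5b0138_an) Part III, block F: module PRN. -/

namespace Pool.Agent.AEU.H12F
namespace H14

open MeasureTheory Complex Filter Topology Pool.Agent.H62T Pool.Agent.H16F Pool.Agent.H38KL
  Pool.Agent.H60K

theorem arg_bounds {η1 η2 : ℝ} (h1 : Real.pi / 2 < η1) (h2 : 0 < η2) (h2' : η2 < Real.pi / 2)
    {z : ℂ} (hz : 0 < z.re) (hz' : 0 < z.re * Real.sin η2 + z.im * Real.cos η2) :
    -η2 < Complex.arg z ∧ Complex.arg z < η1 := by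
  have ha : |Complex.arg z| < Real.pi / 2 := Complex.abs_arg_lt_pi_div_two_iff.2 (Or.inl hz)
  rw [abs_lt] at ha
  refine ⟨?_, by linarith⟩
  by_contra hcon
  have hcon : η2 + Complex.arg z ≤ 0 := by linarith [not_lt.1 hcon]
  have h3 : Real.sin (η2 + Complex.arg z) ≤ 0 :=
    Real.sin_nonpos_of_nonpos_of_neg_pi_le hcon (by linarith [Real.pi_pos])
  have h4 : z.re * Real.sin η2 + z.im * Real.cos η2 = ‖z‖ * Real.sin (η2 + Complex.arg z) := by
    rw [Real.sin_add]
    have e1 : z.re = ‖z‖ * Real.cos (Complex.arg z) := (Complex.norm_mul_cos_arg z).symm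
    have e2 : z.im = ‖z‖ * Real.sin (Complex.arg z) := (Complex.norm_mul_sin_arg z).symm
    nth_rewrite 1 [e1]
    nth_rewrite 1 [e2]
    ring
  rw [h4] at hz'
  nlinarith only [hz', h3, norm_nonneg z]

theorem prn : PrnStatement := by
  intro η1 η2 d h1 h2 h12 hd
  have hpi := Real.pi_pos
  have h2' : η2 < Real.pi / 2 := by linarith
  have hs : 0 < Real.sin η2 := Real.sin_pos_of_pos_of_lt_pi h2 (by linarith)
  have hc : 0 < Real.cos η2 := Real.cos_pos_of_mem_Ioo ⟨by linarith, h2'⟩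
  refine ⟨d / 2 * Real.sin η2, by positivity, fun ρ hρ hρ0 => ?_⟩
  set θ : ℝ := min ((2 * η1 - Real.pi) / 4) (ρ / d) with hθ
  have hθ0 : 0 < θ := lt_min (by linarith) (by positivity)
  have hθ1 : θ ≤ (2 * η1 - Real.pi) / 4 := min_le_left _ _
  have hθ2 : θ * d ≤ ρ := by
    have : θ ≤ ρ / d := min_le_right _ _
    rwa [le_div_iff₀ hd] at this
  have hθ3 : θ < Real.pi / 2 := by linarith
  refine ⟨θ, hθ0, hθ3, by linarith, by linarith, ?_⟩
  set g : ℝ := 2 * d * Real.cos θ + 2 * ρ * Real.sin θ - 2 * d with hg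
  have hg0 : 0 < g := by
    have e1 : 1 - θ ^ 2 / 2 ≤ Real.cos θ := Real.one_sub_sq_div_two_le_cos
    have e2 : 2 / Real.pi * θ ≤ Real.sin θ := Real.mul_le_sin hθ0.le hθ3.le
    have e3 : 1 / 2 < 2 / Real.pi := by
      rw [div_lt_div_iff₀ (by norm_num) hpi]
      linarith [Real.pi_lt_four]
    have e4 : θ / 2 < Real.sin θ := by nlinarith only [e2, hθ0, e3]
    have e5 : d * θ ^ 2 ≤ ρ * θ := by nlinarith only [hθ0, hθ2]
    have e6 : ρ * (θ / 2) < ρ * Real.sin θ := mul_lt_mul_of_pos_left e4 hρ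
    have e7 : d * (1 - θ ^ 2 / 2) ≤ d * Real.cos θ := mul_le_mul_of_nonneg_left e1 hd.le
    linarith only [e5, e6, e7]
  refine ⟨g / 2, min (min (d / 6) ρ) (g / 8), by positivity, by positivity, fun δ hδ hδ0 => ?_⟩
  have hδ1 : δ < d / 6 := hδ0.trans_le ((min_le_left _ _).trans (min_le_left _ _))
  have hδ2 : δ < ρ := hδ0.trans_le ((min_le_left _ _).trans (min_le_right _ _))
  have hδ3 : δ < g / 8 := hδ0.trans_le (min_le_right _ _)
  refine ⟨by linarith, hδ2, ?_, ?_⟩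
  · intro x hx
    obtain ⟨hx1, hx2, hx3⟩ := hx
    rw [abs_lt] at hx1
    have hxr : d / 2 < x.re := by linarith
    have hxi : -(d / 2 * Real.sin η2) < x.im * Real.cos η2 := by
      have hc1 : Real.cos η2 ≤ 1 := Real.cos_le_one _
      nlinarith only [hρ0, hc, hx2, hρ, hc1]
    have hre : (2 * (d : ℂ) - (starRingEnd ℂ) x).re = 2 * d - x.re := by
      simp
    have him : (2 * (d : ℂ) - (starRingEnd ℂ) x).im = x.im := by
      simp
    have e1 : 0 < x.re * Real.sin η2 + x.im * Real.cos η2 := by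
      linarith only [hxi, mul_pos (by linarith : 0 < x.re - d / 2) hs]
    have e2 : 0 < (2 * (d : ℂ) - (starRingEnd ℂ) x).re * Real.sin η2
        + (2 * (d : ℂ) - (starRingEnd ℂ) x).im * Real.cos η2 := by
      rw [hre, him]
      linarith only [hxi, mul_pos (by linarith : 0 < 2 * d - x.re - d / 2) hs]
    have e3 : 0 < (2 * (d : ℂ) - (starRingEnd ℂ) x).re := by rw [hre]; linarith
    obtain ⟨a1, a2⟩ := arg_bounds h1 h2 h2' (by linarith : 0 < x.re) e1
    obtain ⟨a3, a4⟩ := arg_bounds h1 h2 h2' e3 e2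
    exact ⟨by linarith, a1, a2, e3, a3, a4⟩
  · unfold Ex
    have e1 : Real.cos θ ≤ 1 := Real.cos_le_one _
    have e2 : Real.sin θ ≤ 1 := Real.sin_le_one _
    nlinarith only [hδ3, hδ, e1, e2]

end H14
end Pool.Agent.AEU.H12F
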