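import Pool.Agent.Helper60_AEU.Stmt

/-!
AEU (MP_5b0138_an), Part III: elementary geometry of chains of blocks (helper14).
-/

namespace Pool.Agent.H60K
namespace H14

open MeasureTheory Complex Filter Topology ProbabilityTheory Pool.Agent.H16Iso Pool.Agent.H62T
  Pool.Agent.H16F Pool.Agent.H38KL

/-! ### Scalar products -/

theorem ip_le_norm {u : ℂ} (hu : ‖u‖ = 1) (z : ℂ) : ip u z ≤ ‖z‖ := by
  have h1 : u.re ^ 2 + u.im ^ 2 = 1 := by
    have := Complex.sq_norm u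
    rw [hu, Complex.normSq_apply] at this
    nlinarith [this]
  have h2 : z.re ^ 2 + z.im ^ 2 = ‖z‖ ^ 2 := by
    have := Complex.sq_norm z
    rw [Complex.normSq_apply] at this
    nlinarith [this]
  have h3 : (ip u z) ^ 2 ≤ ‖z‖ ^ 2 := by
    unfold ip
    nlinarith [sq_nonneg (u.re * z.im - u.im * z.re)]
  exact le_trans (le_abs_self _) (abs_le_of_sq_le_sq h3 (norm_nonneg z))

theorem ip_sub (u x y : ℂ) : ip u (x - y) = ip u x - ip u y := by
  unfold ip; simp only [Complex.sub_re, Complex.sub_im]; ring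

theorem ip_neg_left (u x : ℂ) : ip (-u) x = - ip u x := by
  unfold ip; simp only [Complex.neg_re, Complex.neg_im]; ring

theorem ip_diff {u : ℂ} (hu : ‖u‖ = 1) (x y : ℂ) : |ip u x - ip u y| ≤ ‖x - y‖ := by
  rw [abs_le]
  constructor
  · have := ip_le_norm hu (y - x)
    rw [ip_sub, norm_sub_rev] at this
    linarith
  · have := ip_le_norm hu (x - y)
    rwa [ip_sub] at this

theorem ip_rf {u : Fin 3 → ℂ} (h : Fin 3 → ℝ) {s : Fin 3} (hu : ‖u s‖ = 1) (y : ℂ) :
    ip (u s) (rf u h s y) = 2 * h s - ip (u s) y := by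
  have h1 : (u s).re ^ 2 + (u s).im ^ 2 = 1 := by
    have := Complex.sq_norm (u s)
    rw [hu, Complex.normSq_apply] at this
    nlinarith [this]
  unfold rf ip
  simp only [Complex.sub_re, Complex.sub_im, Complex.mul_re, Complex.mul_im, Complex.ofReal_re,
    Complex.ofReal_im]
  linear_combination (-2 * ((u s).re * y.re + (u s).im * y.im - h s)) * h1

theorem norm_rf_sq {u : Fin 3 → ℂ} (h : Fin 3 → ℝ) {s : Fin 3} (hu : ‖u s‖ = 1) (x y : ℂ) :
    ‖x - rf u h s y‖ ^ 2 = ‖x - y‖ ^ 2 + 4 * (h s - ip (u s) x) * (h s - ip (u s) y) := by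
  have h1 : (u s).re ^ 2 + (u s).im ^ 2 = 1 := by
    have := Complex.sq_norm (u s)
    rw [hu, Complex.normSq_apply] at this
    nlinarith [this]
  rw [Complex.sq_norm, Complex.sq_norm, Complex.normSq_apply, Complex.normSq_apply]
  unfold rf ip
  simp only [Complex.sub_re, Complex.sub_im, Complex.mul_re, Complex.mul_im, Complex.ofReal_re,
    Complex.ofReal_im]
  linear_combination (4 * ((u s).re * y.re + (u s).im * y.im - h s) ^ 2) * h1

/-! ### Lengths of blocks -/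

theorem norm_le_dd {u : Fin 3 → ℂ} (h : Fin 3 → ℝ) {s : Fin 3} (hu : ‖u s‖ = 1) (x y : ℂ) :
    ‖x - y‖ ≤ dd u h s x y := by
  unfold dd
  split_ifs with hc
  · have h1 := norm_rf_sq h hu x y
    have h2 : 0 < (h s - ip (u s) x) * (h s - ip (u s) y) :=
      mul_pos (by linarith [hc.1]) (by linarith [hc.2])
    apply le_of_sq_le_sq
    · nlinarith
    · exact norm_nonneg _
  · exact le_rfl

theorem dd_near {u : Fin 3 → ℂ} {h : Fin 3 → ℝ} {s : Fin 3} (hu : ‖u s‖ = 1) {x y : ℂ} {δ : ℝ}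
    (hd : dd u h s x y < δ) : h s - δ < ip (u s) x ∧ h s - δ < ip (u s) y := by
  have h0 := (norm_le_dd h hu x y).trans_lt hd
  have h1 := abs_le.mp (ip_diff hu x y)
  unfold dd at hd
  split_ifs at hd with hc
  · have h2 := abs_le.mp (ip_diff hu x (rf u h s y))
    rw [ip_rf h hu] at h2
    constructor <;> linarith [hc.1, hc.2, h2.1]
  · rw [not_and_or, not_lt, not_lt] at hc
    rcases hc with hc | hc
    · constructor <;> linarith [norm_nonneg (x - y)]
    · constructor <;> linarith [norm_nonneg (x - y)]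

theorem dd_le_bl (u : Fin 3 → ℂ) (h : Fin 3 → ℝ) {A : Finset (Fin 3)} {s : Fin 3} (hs : s ∈ A)
    (x y : ℂ) : dd u h s x y ≤ bl u h A x y := by
  unfold bl
  have := Finset.le_sup' (fun s : Fin 3 => if s ∈ A then dd u h s x y else ‖x - y‖)
    (Finset.mem_univ s)
  simpa only [hs, if_true] using this

theorem norm_le_bl {u : Fin 3 → ℂ} (h : Fin 3 → ℝ) (hu : ∀ s, ‖u s‖ = 1) (A : Finset (Fin 3))
    (x y : ℂ) : ‖x - y‖ ≤ bl u h A x y := by
  by_cases hs : (0 : Fin 3) ∈ A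
  · exact (norm_le_dd h (hu 0) x y).trans (dd_le_bl u h hs x y)
  · unfold bl
    have := Finset.le_sup' (fun s : Fin 3 => if s ∈ A then dd u h s x y else ‖x - y‖)
      (Finset.mem_univ 0)
    simpa only [hs, if_false] using this

theorem bl_near {u : Fin 3 → ℂ} {h : Fin 3 → ℝ} (hu : ∀ s, ‖u s‖ = 1) {A : Finset (Fin 3)}
    {s : Fin 3} (hs : s ∈ A) {x y : ℂ} {δ : ℝ} (hd : bl u h A x y < δ) :
    h s - δ < ip (u s) x ∧ h s - δ < ip (u s) y :=
  dd_near (hu s) ((dd_le_bl u h hs x y).trans_lt hd)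

/-! ### Chains -/

theorem chain_le (y : ℕ → ℂ) {a b : ℕ} (hab : a ≤ b) :
    ‖y a - y b‖ ≤ ∑ i ∈ Finset.Ico a b, ‖y i - y (i + 1)‖ := by
  have := dist_le_Ico_sum_dist y hab
  simpa only [dist_eq_norm] using this

theorem ofNat_succ {n : ℕ} [NeZero n] (i : ℕ) : Fin.ofNat n (i + 1) = Fin.ofNat n i + 1 := by
  apply Fin.ext
  simp only [Fin.ofNat, Fin.val_add, Fin.val_one']
  rw [Nat.add_mod]

theorem ofNat_self {n : ℕ} [NeZero n] : Fin.ofNat n n = 0 := by
  apply Fin.ext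
  simp [Fin.ofNat]

theorem ofNat_zero {n : ℕ} [NeZero n] : Fin.ofNat n 0 = 0 := by
  apply Fin.ext
  simp [Fin.ofNat]

theorem ofNat_val {n : ℕ} [NeZero n] (i : Fin n) : Fin.ofNat n (i : ℕ) = i := by
  apply Fin.ext
  simp only [Fin.ofNat]
  exact Nat.mod_eq_of_lt i.isLt

theorem sum_cyc {n : ℕ} [NeZero n] (f : Fin n → ℝ) (j : Fin n) :
    ∑ i, f i = ∑ i ∈ Finset.range n, f (j + Fin.ofNat n i) := by
  rw [← Fin.sum_univ_eq_sum_range (fun i => f (j + Fin.ofNat n i)) n,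
    ← Equiv.sum_comp (Equiv.addLeft j) f]
  apply Finset.sum_congr rfl
  intro i _
  simp only [Equiv.coe_addLeft, ofNat_val]

theorem exists_ofNat {n : ℕ} [NeZero n] (i l : Fin n) : ∃ a : ℕ, a < n ∧ l = i + Fin.ofNat n a := by
  refine ⟨(l - i : Fin n), (l - i).isLt, ?_⟩
  rw [ofNat_val]
  simp

/-- a cyclic chain is at least as long as a closed polygon with four of its points -/
theorem four_le {n : ℕ} [NeZero n] (x : Fin n → ℂ) (j : Fin n) {a b c : ℕ} (h1 : a ≤ b)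
    (h2 : b ≤ c) (h3 : c ≤ n) :
    ‖x j - x (j + Fin.ofNat n a)‖ + ‖x (j + Fin.ofNat n a) - x (j + Fin.ofNat n b)‖
      + ‖x (j + Fin.ofNat n b) - x (j + Fin.ofNat n c)‖ + ‖x (j + Fin.ofNat n c) - x j‖
      ≤ ∑ i, ‖x i - x (i + 1)‖ := by
  rw [sum_cyc (fun i => ‖x i - x (i + 1)‖) j]
  set y : ℕ → ℂ := fun i => x (j + Fin.ofNat n i) with hy
  have e0 : x j = y 0 := by simp only [hy, ofNat_zero, add_zero]
  have en : x j = y n := by simp only [hy, ofNat_self, add_zero]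
  have es : ∀ i, x (j + Fin.ofNat n i + 1) = y (i + 1) := by
    intro i; simp only [hy, ofNat_succ, add_assoc]
  have s1 := chain_le y (Nat.zero_le a)
  have s2 := chain_le y h1
  have s3 := chain_le y h2
  have s4 := chain_le y h3
  have t1 := Finset.sum_Ico_consecutive (fun i => ‖y i - y (i + 1)‖) (Nat.zero_le a) h1
  have t2 := Finset.sum_Ico_consecutive (fun i => ‖y i - y (i + 1)‖) (Nat.zero_le b) h2
  have t3 := Finset.sum_Ico_consecutive (fun i => ‖y i - y (i + 1)‖) (Nat.zero_le c) h3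
  have t4 : ∑ i ∈ Finset.range n, ‖x (j + Fin.ofNat n i) - x (j + Fin.ofNat n i + 1)‖
      = ∑ i ∈ Finset.Ico 0 n, ‖y i - y (i + 1)‖ := by
    rw [Finset.range_eq_Ico]
    apply Finset.sum_congr rfl
    intro i _
    rw [es i]
  rw [t4]
  have u1 : ‖x j - x (j + Fin.ofNat n a)‖ = ‖y 0 - y a‖ := by rw [e0]
  have u4 : ‖x (j + Fin.ofNat n c) - x j‖ = ‖y c - y n‖ := by rw [en]
  rw [u1, u4]
  change ‖y 0 - y a‖ + ‖y a - y b‖ + ‖y b - y c‖ + ‖y c - y n‖ ≤ _
  linarith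

theorem two_le {n : ℕ} [NeZero n] (x : Fin n → ℂ) (i l : Fin n) :
    2 * ‖x i - x l‖ ≤ ∑ j, ‖x j - x (j + 1)‖ := by
  obtain ⟨a, ha, rfl⟩ := exists_ofNat i l
  have := four_le x i (le_refl a) (le_refl a) ha.le
  rw [sub_self, norm_zero, norm_sub_rev (x (i + Fin.ofNat n a)) (x i)] at this
  linarith

theorem three_le {n : ℕ} [NeZero n] (x : Fin n → ℂ) (i l m : Fin n) :
    ‖x i - x l‖ + ‖x l - x m‖ + ‖x m - x i‖ ≤ ∑ j, ‖x j - x (j + 1)‖ := by
  obtain ⟨a, ha, rfl⟩ := exists_ofNat i l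
  obtain ⟨b, hb, rfl⟩ := exists_ofNat i m
  rcases le_total a b with hab | hab
  · have := four_le x i hab (le_refl b) hb.le
    rw [sub_self, norm_zero] at this
    linarith
  · have := four_le x i hab (le_refl a) ha.le
    rw [sub_self, norm_zero] at this
    rw [norm_sub_rev (x i) (x (i + Fin.ofNat n a)),
      norm_sub_rev (x (i + Fin.ofNat n a)) (x (i + Fin.ofNat n b)),
      norm_sub_rev (x (i + Fin.ofNat n b)) (x i)]
    linarith

theorem sum_norm_le_Ln {n : ℕ} [NeZero n] {u : Fin 3 → ℂ} (h : Fin 3 → ℝ) (hu : ∀ s, ‖u s‖ = 1)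
    (x : Fin n → ℂ) (A : Fin n → Finset (Fin 3)) :
    ∑ i, ‖x i - x (i + 1)‖ ≤ Ln u h x A := by
  unfold Ln
  exact Finset.sum_le_sum fun j _ => norm_le_bl h hu (A j) _ _

/-! ### Reflected chains -/

theorem norm_uc {u : Fin 3 → ℂ} (hu : ∀ s, ‖u s‖ = 1) (s : Fin 3) : ‖uc u s‖ = 1 := by
  unfold uc
  by_cases h : s = 0
  · subst h; rw [Function.update_self, norm_neg]; exact hu 0
  · rw [Function.update_of_ne h]; exact hu s

/-- the part of a reflected chain which starts at the reflected point -/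
noncomputable def yr {n : ℕ} [NeZero n] (u : Fin 3 → ℂ) (h : Fin 3 → ℝ) (x : Fin n → ℂ)
    (i : ℕ) : ℂ := if i = 1 then rf u h 0 (x 1) else x (Fin.ofNat n i)

theorem ini_ofNat {n : ℕ} [NeZero n] (u : Fin 3 → ℂ) (h : Fin 3 → ℝ) (x : Fin n → ℂ) {i : ℕ}
    (hn : 2 ≤ n) (hi : i < n) : ini u h x (Fin.ofNat n i) = yr u h x i := by
  unfold ini yr
  have h1 : (Fin.ofNat n i = 1) ↔ i = 1 := by
    constructor
    · intro h
      have := congrArg Fin.val h
      simp only [Fin.ofNat, Fin.val_one'] at this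
      rw [Nat.mod_eq_of_lt hi, Nat.mod_eq_of_lt (by omega)] at this
      exact this
    · rintro rfl
      apply Fin.ext
      simp only [Fin.ofNat, Fin.val_one']
  by_cases h2 : i = 1
  · rw [if_pos (h1.mpr h2), if_pos h2]
  · rw [if_neg (fun h => h2 (h1.mp h)), if_neg h2]

/-- lengths of the blocks from `a` to `b` of a reflected chain -/
theorem chain_ref {n : ℕ} [NeZero n] {u : Fin 3 → ℂ} (h : Fin 3 → ℝ) (hu : ∀ s, ‖u s‖ = 1)
    (x : Fin n → ℂ) (A : Fin n → Finset (Fin 3)) {a b : ℕ} (ha : 1 ≤ a) (hab : a ≤ b)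
    (hb : b ≤ n) (hn : 2 ≤ n) :
    ‖yr u h x a - yr u h x b‖ ≤ ∑ i ∈ Finset.Ico a b,
      bl (uc u) (hc h) (A (Fin.ofNat n i)) (ini u h x (Fin.ofNat n i)) (x (Fin.ofNat n i + 1)) := by
  refine (chain_le (yr u h x) hab).trans (Finset.sum_le_sum ?_)
  intro i hi
  rw [Finset.mem_Ico] at hi
  rw [ini_ofNat u h x hn (by omega), ← ofNat_succ]
  have h1 : yr u h x (i + 1) = x (Fin.ofNat n (i + 1)) := by
    unfold yr; rw [if_neg (by omega)]
  rw [h1]
  exact norm_le_bl (hc h) (norm_uc hu) _ _ _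

/-- four points on a reflected chain -/
theorem four_ref {n : ℕ} [NeZero n] {u : Fin 3 → ℂ} (h : Fin 3 → ℝ) (hu : ∀ s, ‖u s‖ = 1)
    (x : Fin n → ℂ) (A : Fin n → Finset (Fin 3)) {a b c : ℕ} (ha : 1 ≤ a) (hab : a ≤ b)
    (hbc : b ≤ c) (hc' : c ≤ n) (hn : 2 ≤ n) :
    ‖x 0 - x 1‖ + ‖yr u h x 1 - yr u h x a‖ + ‖yr u h x a - yr u h x b‖
      + ‖yr u h x b - yr u h x c‖ + ‖yr u h x c - x 0‖ ≤ Lt u h x A := by
  unfold Lt
  rw [sum_cyc _ (0 : Fin n), Finset.range_eq_Ico,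
    ← Finset.sum_Ico_consecutive _ (Nat.zero_le 1) (by omega : 1 ≤ n),
    ← Finset.sum_Ico_consecutive _ ha (by omega : a ≤ n),
    ← Finset.sum_Ico_consecutive _ hab (by omega : b ≤ n),
    ← Finset.sum_Ico_consecutive _ hbc (by omega : c ≤ n)]
  simp only [zero_add]
  have s0 : ‖x 0 - x 1‖ ≤ ∑ i ∈ Finset.Ico 0 1,
      bl (uc u) (hc h) (A (Fin.ofNat n i)) (ini u h x (Fin.ofNat n i)) (x (Fin.ofNat n i + 1)) := by
    rw [show Finset.Ico 0 1 = {0} by rfl, Finset.sum_singleton, ofNat_zero, zero_add]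
    have : ini u h x 0 = x 0 := by
      unfold ini
      rw [if_neg]
      intro h0
      have := congrArg Fin.val h0
      rw [Fin.val_one', Nat.mod_eq_of_lt (by omega)] at this
      simp at this
    rw [this]
    exact norm_le_bl (hc h) (norm_uc hu) _ _ _
  have s1 := chain_ref h hu x A (le_refl 1) ha (by omega) hn
  have s2 := chain_ref h hu x A ha hab (by omega) hn
  have s3 := chain_ref h hu x A (by omega : 1 ≤ b) hbc (by omega) hn
  have s4 := chain_ref h hu x A (by omega : 1 ≤ c) hc' le_rfl hn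
  have e4 : yr u h x n = x 0 := by
    unfold yr; rw [if_neg (by omega), ofNat_self]
  rw [e4] at s4
  linarith

end H14
end Pool.Agent.H60K
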