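import Pool.Agent.Helper14_AEU3.Base

/-!
AEU (MP_5b0138_an), Part III, module GEN: geometry of the nonspanning case (helper14).
-/

namespace Pool.Agent.H60K
namespace H14

open MeasureTheory Complex Filter Topology ProbabilityTheory Pool.Agent.H16Iso Pool.Agent.H62T
  Pool.Agent.H16F Pool.Agent.H38KL

theorem us_zero (η1 η2 : ℝ) : us η1 η2 0 = 1 := by unfold us; simp

theorem us_one (η1 η2 : ℝ) : us η1 η2 1 = I * exp (η1 * I) := by unfold us; simp

theorem us_two (η1 η2 : ℝ) : us η1 η2 2 = -(I * exp (-(η2 * I))) := by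
  unfold us; simp

theorem norm_us (η1 η2 : ℝ) (s : Fin 3) : ‖us η1 η2 s‖ = 1 := by
  fin_cases s
  · change ‖us η1 η2 0‖ = 1
    rw [us_zero, norm_one]
  · change ‖us η1 η2 1‖ = 1
    rw [us_one, norm_mul, Complex.norm_I, Complex.norm_exp_ofReal_mul_I, one_mul]
  · change ‖us η1 η2 2‖ = 1
    rw [us_two, norm_neg, norm_mul, Complex.norm_I, one_mul]
    have : (-(η2 * I) : ℂ) = ((-η2 : ℝ) : ℂ) * I := by push_cast; ring
    rw [this, Complex.norm_exp_ofReal_mul_I]

theorem ip_us0 (η1 η2 : ℝ) (x : ℂ) : ip (us η1 η2 0) x = x.re := by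
  rw [us_zero]; unfold ip; simp

theorem ip_us1 (η1 η2 : ℝ) (x : ℂ) :
    ip (us η1 η2 1) x = -(Real.sin η1 * x.re) + Real.cos η1 * x.im := by
  rw [us_one, Complex.exp_mul_I]
  unfold ip
  simp only [Complex.mul_re, Complex.mul_im, Complex.add_re, Complex.add_im, Complex.I_re,
    Complex.I_im, Complex.cos_ofReal_re, Complex.cos_ofReal_im, Complex.sin_ofReal_re,
    Complex.sin_ofReal_im]
  ring

theorem ip_us2 (η1 η2 : ℝ) (x : ℂ) :
    ip (us η1 η2 2) x = -(Real.sin η2 * x.re) - Real.cos η2 * x.im := by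
  rw [us_two]
  have : (-(η2 * I) : ℂ) = ((-η2 : ℝ) : ℂ) * I := by push_cast; ring
  rw [this, Complex.exp_mul_I]
  unfold ip
  simp only [Complex.mul_re, Complex.mul_im, Complex.add_re, Complex.add_im, Complex.I_re,
    Complex.I_im, Complex.cos_ofReal_re, Complex.cos_ofReal_im, Complex.sin_ofReal_re,
    Complex.sin_ofReal_im, Complex.neg_re, Complex.neg_im, Real.cos_neg, Real.sin_neg]
  ring

theorem hh_zero (d : ℝ) : hh d 0 = d := by unfold hh; simp
theorem hh_one (d : ℝ) : hh d 1 = 0 := by unfold hh; simp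
theorem hh_two (d : ℝ) : hh d 2 = 0 := by unfold hh; simp

theorem uc_zero (u : Fin 3 → ℂ) : uc u 0 = -u 0 := by unfold uc; simp
theorem uc_one (u : Fin 3 → ℂ) : uc u 1 = u 1 := by unfold uc; simp
theorem uc_two (u : Fin 3 → ℂ) : uc u 2 = u 2 := by unfold uc; simp
theorem hc_zero (h : Fin 3 → ℝ) : hc h 0 = -h 0 := by unfold hc; simp
theorem hc_one (h : Fin 3 → ℝ) : hc h 1 = h 1 := by unfold hc; simp
theorem hc_two (h : Fin 3 → ℝ) : hc h 2 = h 2 := by unfold hc; simp

/-- real part of the points near line `1` which are not beyond line `2` -/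
theorem re_small {η1 η2 δ : ℝ} (hs : 0 < Real.sin (η1 + η2)) (hc1 : Real.cos η1 < 0)
    (hc2 : 0 < Real.cos η2) {p : ℂ} (h1 : -δ < ip (us η1 η2 1) p) (h2 : ip (us η1 η2 2) p < 0) :
    p.re < Real.cos η2 / Real.sin (η1 + η2) * δ := by
  rw [ip_us1] at h1
  rw [ip_us2] at h2
  rw [div_mul_eq_mul_div, lt_div_iff₀ hs, Real.sin_add]
  nlinarith [mul_pos hc2 (by linarith : 0 < δ + (-(Real.sin η1 * p.re) + Real.cos η1 * p.im)),
    mul_pos (by linarith : 0 < -Real.cos η1)
      (by linarith : 0 < Real.sin η2 * p.re + Real.cos η2 * p.im)]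

theorem im_low {η1 η2 δ : ℝ} (hs : 0 < Real.sin (η1 + η2)) (hs1 : 0 < Real.sin η1)
    (hs2 : 0 < Real.sin η2) (hs2' : Real.sin η2 ≤ 1) (hδ : 0 < δ)
    {p : ℂ} (h1 : -δ < ip (us η1 η2 1) p) (h2 : ip (us η1 η2 2) p < 0) :
    -(δ * (1 / Real.sin (η1 + η2))) < p.im := by
  rw [ip_us1] at h1
  rw [ip_us2] at h2
  rw [mul_one_div, neg_lt, lt_div_iff₀ hs, Real.sin_add]
  nlinarith [mul_pos hs2 (by linarith : 0 < δ + (-(Real.sin η1 * p.re) + Real.cos η1 * p.im)),
    mul_pos hs1 (by linarith : 0 < Real.sin η2 * p.re + Real.cos η2 * p.im),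
    mul_nonneg hδ.le (by linarith : 0 ≤ 1 - Real.sin η2)]

theorem im_high {η1 η2 δ m : ℝ} (hc1 : Real.cos η1 < 0) (hs1 : 0 < Real.sin η1)
    (hs1' : Real.sin η1 ≤ 1) (hm : 0 < m)
    {p : ℂ} (h1 : -δ < ip (us η1 η2 1) p) (hp : -m < p.re) :
    p.im < (δ + m) * (1 / -Real.cos η1) := by
  rw [ip_us1] at h1
  rw [mul_one_div, lt_div_iff₀ (by linarith : 0 < -Real.cos η1)]
  nlinarith [mul_pos hs1 (by linarith : 0 < p.re + m),
    mul_nonneg hm.le (by linarith : 0 ≤ 1 - Real.sin η1)]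

/-- a point at which the cut-off changes is near the foot -/
theorem im_bound {η1 η2 d δ t ρ : ℝ} (hs : 0 < Real.sin (η1 + η2)) (hc1 : Real.cos η1 < 0)
    (hc2 : 0 < Real.cos η2) (hs1 : 0 < Real.sin η1) (hs2 : 0 < Real.sin η2)
    (hd : 0 < d) (hδ : 0 < δ) (ht : 0 < t) (hρ : 0 < ρ)
    (hδt : (8 + 2 * (Real.cos η2 / Real.sin (η1 + η2))) * δ ≤ t)
    (ht1 : t ≤ d / 2)
    (ht2 : t * (1 / Real.sin (η1 + η2) + 1 / -Real.cos η1) ≤ ρ / 2)
    (ht3 : t * d ≤ ρ ^ 2 / 20)
    {p z : ℂ} (h1 : -δ < ip (us η1 η2 1) p) (h2 : ip (us η1 η2 2) p < 0)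
    (hz : d - 3 * δ < z.re) (hzp : 2 * ‖z - p‖ < 2 * d + t) : |z.im| < ρ := by
  set C := Real.cos η2 / Real.sin (η1 + η2) with hC
  have hC0 : 0 < C := div_pos hc2 hs
  have h3 := re_small hs hc1 hc2 h1 h2
  rw [← hC] at h3
  have h4 := im_low hs hs1 hs2 (Real.sin_le_one _) hδ h1 h2
  have hsq : ‖z - p‖ ^ 2 = (z.re - p.re) ^ 2 + (z.im - p.im) ^ 2 := by
    rw [Complex.sq_norm, Complex.normSq_apply, Complex.sub_re, Complex.sub_im]; ring
  have hre : z.re - p.re ≤ ‖z - p‖ := by
    have := Complex.re_le_norm (z - p)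
    rwa [Complex.sub_re] at this
  have hCδ : 0 < C * δ := mul_pos hC0 hδ
  have hδ8 : 8 * δ + 2 * (C * δ) ≤ t := by linarith
  have hp : -(3 * δ + t / 2) < p.re := by linarith
  have h5 := im_high (η2 := η2) hc1 hs1 (Real.sin_le_one _) (by linarith : 0 < 3 * δ + t / 2) h1 hp
  have hK1 : 0 < 1 / Real.sin (η1 + η2) := one_div_pos.mpr hs
  have hK2 : 0 < 1 / -Real.cos η1 := one_div_pos.mpr (by linarith)
  have h6 : |p.im| < ρ / 2 := by
    rw [abs_lt]
    constructor
    · have : δ * (1 / Real.sin (η1 + η2)) ≤ t * (1 / Real.sin (η1 + η2)) :=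
        mul_le_mul_of_nonneg_right (by linarith) hK1.le
      nlinarith [mul_pos ht hK2]
    · have : (δ + (3 * δ + t / 2)) * (1 / -Real.cos η1) ≤ t * (1 / -Real.cos η1) :=
        mul_le_mul_of_nonneg_right (by linarith) hK2.le
      nlinarith [mul_pos ht hK1]
  have h7 : (z.im - p.im) ^ 2 < (ρ / 2) ^ 2 := by
    have h8 : ‖z - p‖ ^ 2 < (d + t / 2) ^ 2 := by
      have : ‖z - p‖ < d + t / 2 := by linarith
      nlinarith [norm_nonneg (z - p)]
    have h9 : (d - t / 2) ^ 2 ≤ (z.re - p.re) ^ 2 := by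
      apply pow_le_pow_left₀ (by linarith)
      linarith
    nlinarith
  have h8 : |z.im - p.im| < ρ / 2 := by
    apply abs_lt_of_sq_lt_sq h7 (by linarith)
  calc |z.im| = |(z.im - p.im) + p.im| := by ring_nf
    _ ≤ |z.im - p.im| + |p.im| := abs_add_le _ _
    _ < ρ := by linarith

theorem gen : GenStatement := by
  intro η1 η2 d hη1 hη2 hη hd
  have hη1π : η1 < Real.pi := by linarith
  have hη2π : η2 < Real.pi / 2 := by linarith
  have hs : 0 < Real.sin (η1 + η2) :=
    Real.sin_pos_of_pos_of_lt_pi (by linarith [Real.pi_pos]) hη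
  have hs1 : 0 < Real.sin η1 := Real.sin_pos_of_pos_of_lt_pi (by linarith [Real.pi_pos]) hη1π
  have hs2 : 0 < Real.sin η2 := Real.sin_pos_of_pos_of_lt_pi hη2 (by linarith [Real.pi_pos])
  have hc1 : Real.cos η1 < 0 :=
    Real.cos_neg_of_pi_div_two_lt_of_lt hη1 (by linarith [Real.pi_pos])
  have hc2 : 0 < Real.cos η2 := Real.cos_pos_of_mem_Ioo ⟨by linarith [Real.pi_pos], hη2π⟩
  have hs2' : Real.sin η2 ≤ 1 := Real.sin_le_one _
  have hc2' : Real.cos η2 ≤ 1 := Real.cos_le_one _
  set C := Real.cos η2 / Real.sin (η1 + η2) with hC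
  have hC0 : 0 < C := div_pos hc2 hs
  set K := 1 / Real.sin (η1 + η2) + 1 / -Real.cos η1 with hK
  have hK0 : 0 < K := add_pos (one_div_pos.mpr hs) (one_div_pos.mpr (by linarith))
  refine ⟨d * Real.sin η2 / 4, by positivity, ?_⟩
  intro ρ hρ hρ0
  set t := min (min (d / 2) (ρ / 2 / K)) (min (ρ ^ 2 / 20 / d) (d * Real.sin η2 / 4)) with ht
  have ht0 : 0 < t := by
    rw [ht]
    refine lt_min (lt_min ?_ ?_) (lt_min ?_ ?_) <;> positivity
  have ht1 : t ≤ d / 2 := (min_le_left _ _).trans (min_le_left _ _)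
  have ht2 : t * K ≤ ρ / 2 := by
    have : t ≤ ρ / 2 / K := (min_le_left _ _).trans (min_le_right _ _)
    rwa [le_div_iff₀ hK0] at this
  have ht3 : t * d ≤ ρ ^ 2 / 20 := by
    have : t ≤ ρ ^ 2 / 20 / d := (min_le_right _ _).trans (min_le_left _ _)
    rwa [le_div_iff₀ hd] at this
  have ht4 : t ≤ d * Real.sin η2 / 4 := (min_le_right _ _).trans (min_le_right _ _)
  refine ⟨t, t / (8 + 2 * C), ht0, by positivity, ?_⟩
  intro δ hδ hδ0 n hn0 x A hn
  have hδt : (8 + 2 * C) * δ ≤ t := by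
    rw [lt_div_iff₀ (by positivity)] at hδ0
    linarith
  have hCδ : 0 < C * δ := mul_pos hC0 hδ
  have hδ8 : 8 * δ + 2 * (C * δ) ≤ t := by linarith
  have hu := norm_us η1 η2
  have hds : 0 < d * Real.sin η2 := by positivity
  have hds' : d * Real.sin η2 ≤ d := by nlinarith
  have hne01 : (0 : Fin n) ≠ 1 := by
    intro h0
    have := congrArg Fin.val h0
    rw [Fin.val_one', Nat.mod_eq_of_lt (by omega)] at this
    simp at this
  -- points near line `0`
  have near0 : ∀ j, Sho (us η1 η2) (hh d) δ x A → 0 ∈ A j →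
      d - δ < (x j).re ∧ d - δ < (x (j + 1)).re := by
    intro j hSho h0
    have := bl_near hu h0 (hSho j)
    rwa [hh_zero, ip_us0, ip_us0] at this
  -- points near line `1`
  have near1 : ∀ j, Sho (us η1 η2) (hh d) δ x A → 1 ∈ A j →
      -δ < ip (us η1 η2 1) (x j) ∧ -δ < ip (us η1 η2 1) (x (j + 1)) := by
    intro j hSho h0
    have := bl_near hu h0 (hSho j)
    rwa [hh_one, zero_sub] at this
  have avoid2 : ∀ j, Cns (us η1 η2) (hh d) x A → Disjoint (A j) {2} →
      ip (us η1 η2 2) (x j) < 0 ∧ ip (us η1 η2 2) (x (j + 1)) < 0 := by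
    intro j hCns hdis
    have h2 : (2 : Fin 3) ∉ A j := by
      rw [Finset.disjoint_singleton_right] at hdis; exact hdis
    have := hCns j 2 h2
    rwa [hh_two] at this
  have re1 : ∀ j, Sho (us η1 η2) (hh d) δ x A → 1 ∈ A j → Cns (us η1 η2) (hh d) x A →
      Disjoint (A j) {2} → (x j).re < C * δ ∧ (x (j + 1)).re < C * δ := by
    intro j hSho h1 hCns hdis
    have a1 := near1 j hSho h1
    have a2 := avoid2 j hCns hdis
    exact ⟨re_small hs hc1 hc2 a1.1 a2.1, re_small hs hc1 hc2 a1.2 a2.2⟩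
  have reabs : ∀ a b : ℂ, a.re - b.re ≤ ‖a - b‖ := by
    intro a b
    have := Complex.re_le_norm (a - b)
    rwa [Complex.sub_re] at this
  have reabs' : ∀ a b : ℂ, b.re - a.re ≤ ‖a - b‖ := by
    intro a b
    rw [norm_sub_rev]; exact reabs b a
  refine ⟨?_, ?_, ?_⟩
  · -- first part
    intro hVis hCns hSho hLn
    have hlen := (sum_norm_le_Ln (hh d) hu x A).trans_lt hLn
    have hdis : ∀ j, Disjoint (A j) {2} := hVis.2
    refine ⟨⟨?_, ?_⟩, ?_, ?_⟩
    · intro j h0
      have := near0 j hSho h0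
      constructor <;> linarith [this.1, this.2]
    · intro j s hs h1
      rw [Finset.mem_singleton] at hs
      subst hs
      have := re1 j hSho h1 hCns (hdis j)
      constructor <;> linarith [this.1, this.2]
    · intro j a b c s s' ha hab hbc hcn hs hs' _ h0 h1 h0' h1'
      rw [Finset.mem_singleton] at hs hs'
      subst hs; subst hs'
      have b1 := (near0 j hSho h0).1
      have b2 := (re1 _ hSho h1 hCns (hdis _)).1
      have b3 := (near0 _ hSho h0').1
      have b4 := (re1 _ hSho h1' hCns (hdis _)).1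
      have b5 := four_le x j hab.le hbc.le hcn.le
      have b6 := reabs (x j) (x (j + Fin.ofNat n a))
      have b7 := reabs' (x (j + Fin.ofNat n a)) (x (j + Fin.ofNat n b))
      have b8 := reabs (x (j + Fin.ofNat n b)) (x (j + Fin.ofNat n c))
      have b9 := reabs' (x (j + Fin.ofNat n c)) (x j)
      linarith
    · intro hch
      obtain ⟨l, hl⟩ := hVis.1 1 (by simp)
      have c1 := (near1 l hSho hl).1
      have c2 := (avoid2 l hCns (hdis l)).1
      have hb : ‖x 0 - x 1‖ < δ := by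
        have := (norm_le_bl (hh d) hu (A 0) (x 0) (x (0 + 1))).trans_lt (hSho 0)
        rwa [zero_add] at this
      have d1 := reabs (x 0) (x 1)
      have d2 := reabs' (x 0) (x 1)
      have hre : |(x 0).re - (d - 2 * δ)| < δ ∧ |(x 1).re - (d - 2 * δ)| < δ := by
        unfold ch at hch
        rw [abs_lt, abs_lt]
        split_ifs at hch with e1 e2 e2
        · exact absurd rfl hch
        · rw [not_le] at e2
          refine ⟨⟨?_, ?_⟩, ⟨?_, ?_⟩⟩ <;> linarith
        · rw [not_le] at e1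
          refine ⟨⟨?_, ?_⟩, ⟨?_, ?_⟩⟩ <;> linarith
        · exact absurd rfl hch
      have i0 : |(x 0).im| < ρ := by
        refine im_bound hs hc1 hc2 hs1 hs2 hd hδ ht0 hρ hδt ht1 ht2 ht3 c1 c2 ?_ ?_
        · have := (abs_lt.mp hre.1).1; linarith
        · exact (two_le x 0 l).trans_lt hlen
      have i1 : |(x 1).im| < ρ := by
        refine im_bound hs hc1 hc2 hs1 hs2 hd hδ ht0 hρ hδt ht1 ht2 ht3 c1 c2 ?_ ?_
        · have := (abs_lt.mp hre.2).1; linarith
        · exact (two_le x 1 l).trans_lt hlen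
      rw [abs_lt] at i0 i1
      exact ⟨⟨hre.1, i0.1, i0.2⟩, ⟨hre.2, i1.1, i1.2⟩⟩
  · -- second part
    intro hBad hCns hSho hx0 hx1
    obtain ⟨k, hF, hO, hE, l, -, hlk, hl2⟩ := hBad
    obtain ⟨hk0, hkn, hk, -⟩ := hF
    obtain ⟨m, hkm, hmn, hm⟩ := hO 1 (by simp)
    have hl2' : (2 : Fin 3) ∈ A (Fin.ofNat n l) := by
      by_contra h
      exact hl2 (Finset.disjoint_singleton_right.mpr h)
    have c0 := (near0 _ hSho hk).1
    have c1 := (re1 _ hSho hm hCns (hE m hkm hmn)).1
    have c2 := (bl_near hu hl2' (hSho _)).1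
    rw [hh_two, zero_sub, ip_us2] at c2
    have hlen := sum_norm_le_Ln (hh d) hu x A
    have c3 := four_le x 0 hlk hkm.le hmn.le
    simp only [zero_add] at c3
    obtain ⟨r1, r2, r3⟩ := hx0
    rw [abs_lt] at r1
    have c4 := abs_le.mp (ip_diff (hu 2) (x 0) (x (Fin.ofNat n l)))
    rw [ip_us2, ip_us2] at c4
    have c5 : (d - 3 * δ) * Real.sin η2 - ρ ≤ Real.sin η2 * (x 0).re + Real.cos η2 * (x 0).im := by
      have e1 : 0 ≤ Real.sin η2 * ((x 0).re - (d - 3 * δ)) := mul_nonneg hs2.le (by linarith)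
      have e2 : 0 ≤ Real.cos η2 * ((x 0).im + ρ) := mul_nonneg hc2.le (by linarith)
      nlinarith
    have c6 := reabs (x (Fin.ofNat n k)) (x (Fin.ofNat n m))
    have c7 := reabs' (x (Fin.ofNat n m)) (x 0)
    have c8 := norm_nonneg (x (Fin.ofNat n l) - x (Fin.ofNat n k))
    have c9 : 3 * δ * Real.sin η2 ≤ 3 * δ := by nlinarith
    linarith [c4.1]
  · -- third part
    intro hA0 hBad hCnt hSht hx0 hx1
    obtain ⟨r1, r2, r3⟩ := hx0
    rw [abs_lt] at r1
    obtain ⟨q1, q2, q3⟩ := hx1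
    rw [abs_lt] at q1
    have hyr1 : yr (us η1 η2) (hh d) x 1 = rf (us η1 η2) (hh d) 0 (x 1) := by
      unfold yr; rw [if_pos rfl]
    have hyre : (yr (us η1 η2) (hh d) x 1).re = 2 * d - (x 1).re := by
      have := ip_rf (u := us η1 η2) (hh d) (hu 0) (x 1)
      rw [ip_us0, ip_us0, hh_zero] at this
      rw [hyr1]; exact this
    have hyim : (yr (us η1 η2) (hh d) x 1).im = (x 1).im := by
      rw [hyr1]; unfold rf; rw [us_zero]; simp
    -- the initial points of the blocks up to the first visit of line `0`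
    have init : ∀ k, Fst A k → ∀ l, 0 < l → l ≤ k → d < (yr (us η1 η2) (hh d) x l).re := by
      intro k hF l hl hlk
      obtain ⟨hk0, hkn, hk, hF⟩ := hF
      by_cases h1 : l = 1
      · subst h1; rw [hyre]; linarith
      · have h2 : 0 ∉ A (Fin.ofNat n (l - 1)) := hF (l - 1) (by omega) (by omega)
        have h3 : Fin.ofNat n (l - 1) ≠ 0 := by
          intro h0
          have := congrArg Fin.val h0
          simp only [Fin.ofNat] at this
          rw [Nat.mod_eq_of_lt (by omega)] at this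
          simp at this
          omega
        have h4 := (hCnt _ 0 h3 h2).2
        rw [uc_zero, hc_zero, ip_neg_left, ip_us0, hh_zero, ← ofNat_succ,
          show l - 1 + 1 = l by omega] at h4
        unfold yr
        rw [if_neg h1]
        linarith
    have nearr : ∀ l, 0 < l → l < n → ∀ s, s ≠ 0 → s ∈ A (Fin.ofNat n l) →
        hh d s - δ < ip (us η1 η2 s) (yr (us η1 η2) (hh d) x l) := by
      intro l hl hln s hs0 hsA
      have := (bl_near (norm_uc hu) hsA (hSht _)).1
      rw [ini_ofNat _ _ _ hn hln] at this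
      have e1 : uc (us η1 η2) s = us η1 η2 s := by unfold uc; rw [Function.update_of_ne hs0]
      have e2 : hc (hh d) s = hh d s := by unfold hc; rw [Function.update_of_ne hs0]
      rwa [e1, e2] at this
    have avoidr : ∀ l, 0 < l → l < n → Disjoint (A (Fin.ofNat n l)) {2} →
        ip (us η1 η2 2) (yr (us η1 η2) (hh d) x l) < 0 := by
      intro l hl hln hdis
      have h2 : (2 : Fin 3) ∉ A (Fin.ofNat n l) := by
        rw [Finset.disjoint_singleton_right] at hdis; exact hdis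
      have h3 : Fin.ofNat n l ≠ 0 := by
        intro h0
        have := congrArg Fin.val h0
        simp only [Fin.ofNat] at this
        rw [Nat.mod_eq_of_lt hln] at this
        simp at this
        omega
      have := (hCnt _ 2 h3 h2).1
      rw [ini_ofNat _ _ _ hn hln, uc_two, hc_two, hh_two] at this
      exact this
    rcases hBad with hBad | hBad
    · obtain ⟨k, hF, hO, hE, l, hl1, hlk, hl2⟩ := hBad
      have hini := init k hF k hF.1 le_rfl
      obtain ⟨hk0, hkn, hk, -⟩ := hF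
      obtain ⟨m, hkm, hmn, hm⟩ := hO 1 (by simp)
      have hl2' : (2 : Fin 3) ∈ A (Fin.ofNat n l) := by
        by_contra h
        exact hl2 (Finset.disjoint_singleton_right.mpr h)
      have c1 := nearr m (by omega) hmn 1 (by decide) hm
      rw [hh_one, zero_sub] at c1
      have c2 := re_small hs hc1 hc2 c1 (avoidr m (by omega) hmn (hE m hkm hmn))
      have c3 := nearr l (by omega) (by omega) 2 (by decide) hl2'
      rw [hh_two, zero_sub] at c3
      have c4 := four_ref (hh d) hu x A hl1 hlk hkm.le hmn.le hn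
      have c5 := abs_le.mp (ip_diff (hu 2) (yr (us η1 η2) (hh d) x 1) (yr (us η1 η2) (hh d) x l))
      rw [ip_us2 η1 η2 (yr (us η1 η2) (hh d) x 1), hyre, hyim] at c5
      have c6 : d * Real.sin η2 - ρ ≤ Real.sin η2 * (2 * d - (x 1).re)
          + Real.cos η2 * (x 1).im := by
        have e1 : 0 ≤ Real.sin η2 * (d - (x 1).re) := mul_nonneg hs2.le (by linarith)
        have e2 : 0 ≤ Real.cos η2 * ((x 1).im + ρ) := mul_nonneg hc2.le (by linarith)
        nlinarith
      have c7 := reabs (yr (us η1 η2) (hh d) x k) (yr (us η1 η2) (hh d) x m)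
      have c8 := reabs' (yr (us η1 η2) (hh d) x m) (x 0)
      have c9 := norm_nonneg (yr (us η1 η2) (hh d) x l - yr (us η1 η2) (hh d) x k)
      have c10 := norm_nonneg (x 0 - x 1)
      rw [← hC] at c2
      linarith [c5.1]
    · exfalso
      obtain ⟨k, hF, -, hE, s, hsO, l, hl0, hlk, hl⟩ := hBad
      rw [Finset.mem_singleton] at hsO
      subst hsO
      have hini := init k hF l hl0 hlk
      have hln : l < n := lt_of_le_of_lt hlk hF.2.1
      have c1 := nearr l hl0 hln 1 (by decide) hl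
      rw [hh_one, zero_sub] at c1
      have c2 := re_small hs hc1 hc2 c1 (avoidr l hl0 hln (hE l hl0 hln))
      rw [← hC] at c2
      linarith

end H14

/-- module GEN -/
theorem gen_h14 : GenStatement := H14.gen

end Pool.Agent.H60K
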